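import Pool.Agent.GV.LA.Defs

namespace Pool.Agent.GV

open Polynomial Matrix

private theorem key (e : Bool) (a : ℕ) (l j : ℕ) :
    Mcoef e a l j * 64 ^ j = 64 ^ l * Mp e a l j := by
  unfold Mcoef Mp
  have h : (16 : ℚ) ^ (2 * (l : ℤ) - (j : ℤ)) * 64 ^ j = 64 ^ l * 4 ^ (l + j) := by
    rw [zpow_sub₀ (by norm_num), _root_.zpow_mul, zpow_natCast]
    have h1 : ((16 : ℚ) ^ (2 : ℤ)) ^ l = 64 ^ l * 4 ^ l := by
      rw [← mul_pow]; norm_num
    have h2 : (64 : ℚ) ^ j = 16 ^ j * 4 ^ j := by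
      rw [← mul_pow]; norm_num
    rw [h1, h2, pow_add]
    rw [zpow_natCast]
    field_simp
  calc _ = ((16 : ℚ) ^ (2 * (l : ℤ) - (j : ℤ)) * 64 ^ j) * ((bif e then 1 else 1 / 2) * B e (a : ℚ) l j) := by ring
    _ = _ := by rw [h]; ring

theorem charpoly_blocks (e : Bool) (a n : ℕ) (hn : n ≤ a - 1) :
    (Mmat e a).charpoly = (fromBlocks (bA e a n) (bB e a n) (bC e a n) (bD e a n)).charpoly := by
  classical
  set M' : Matrix (Fin (a - 1)) (Fin (a - 1)) ℚ := Matrix.of fun i j => Mp e a (i + 1) (j + 1) with hM'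
  set L : Matrix (Fin (a - 1)) (Fin (a - 1)) ℚ := diagonal fun i => (64 : ℚ) ^ ((i : ℕ) + 1) with hL
  set L' : Matrix (Fin (a - 1)) (Fin (a - 1)) ℚ := diagonal fun i => ((64 : ℚ) ^ ((i : ℕ) + 1))⁻¹ with hL'
  have h1 : L * L' = 1 := by
    rw [hL, hL', diagonal_mul_diagonal]
    rw [← diagonal_one]
    congr 1
    ext i
    exact mul_inv_cancel₀ (by positivity)
  have h2 : L' * L = 1 := mul_eq_one_comm.mp h1
  have h3 : Mmat e a = L * M' * L' := by
    ext i j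
    rw [hL, hL', mul_diagonal, diagonal_mul]
    simp only [Mmat, hM', Matrix.of_apply]
    rw [← key]
    field_simp
  let u : (Matrix (Fin (a - 1)) (Fin (a - 1)) ℚ)ˣ := ⟨L, L', h1, h2⟩
  have h4 : (Mmat e a).charpoly = M'.charpoly := by
    rw [h3]
    have h6 := Matrix.charpoly_units_conj u M'
    have h7 : ((u⁻¹ : (Matrix (Fin (a - 1)) (Fin (a - 1)) ℚ)ˣ) : Matrix (Fin (a - 1)) (Fin (a - 1)) ℚ) = (u : Matrix (Fin (a - 1)) (Fin (a - 1)) ℚ)⁻¹ := Matrix.coe_units_inv u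
    rw [← h7] at h6
    exact h6
  let q : Fin n ⊕ Fin (a - 1 - n) ≃ Fin (a - 1) :=
    finSumFinEquiv.trans (finCongr (by omega))
  have h5 : fromBlocks (bA e a n) (bB e a n) (bC e a n) (bD e a n) = reindex q.symm q.symm M' := by
    ext i j
    rcases i with i | i <;> rcases j with j | j <;>
      simp [q, bA, bB, bC, bD, hM', add_assoc]
  rw [h4, h5, Matrix.charpoly_reindex]

end Pool.Agent.GV
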