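import Pool.Agent.GV.LA.Defs

/-!
# GV-LA-Det: the determinant modulo 2

`Gp Y X Q Z = (1 - T Y,  T Y Q ; - T X,  T (1 + X Q) - Z)`, a matrix over `ℚ[T]`.

* `det_cong`: if all entries of `Y, X, Q, Z` are `Sm` then the coefficients of `det Gp` satisfy
  `‖c_m - 1‖ ≤ 1/2`, `‖c_i‖ ≤ 1/2` for `i ≠ m` (2-adic norm), where `Z` has size `m`.
  Plan: lift the entries to `ℤ_[2]` (a rational number of norm `≤ 1`), say `Y', X', Q', Z'`; the same
  matrix over `ℤ_[2][T]`; map to `ZMod 2` by `PadicInt.toZMod`: the entries of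
  `Y', X', Q', Z'` map to `0`, so the matrix maps to `fromBlocks 1 0 0 T` with determinant `T^m`.
  `RingHom.map_det`, `Polynomial.mapRingHom`.  The kernel of `toZMod` are the elements of norm
  `< 1`, i.e. `≤ 1/2` (`PadicInt.norm_lt_one_iff_dvd`, `PadicInt.ker_toZMod`).  Norms:
  `padicNormE.eq_padicNorm` / `Padic.norm ... ` relates `‖(x : ℚ_[2])‖` and `padicNorm 2 x`.
* `det_fact`: `det (s T - M) = const * det Gp` for `M = (A B; C D)`.  Plan: with `N = s T 1 - M`,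
  `fromBlocks 1 0 (-X) 1 * N * fromBlocks 1 (-Q) 0 1 =
   fromBlocks (s T - A) (-(s T Q)) (-(s T X)) (s T (1 + X Q) - (D - X B))` (using `X A = C`,
  `A Q = B`, `X A Q = X B = C Q`), and `fromBlocks (-s⁻¹ Y) 0 0 (s⁻¹)` times it is `Gp`.
  Determinants: the unipotent ones are `1`; `det(A) det(Y) = s^n ≠ 0`.
  In `ℚ[T]`: `det (s T 1 - M)` is `(charpoly M).comp (C s * X)`.  So
  `C κ * (fromBlocks A B C D).charpoly.comp (C s * X) = det Gp` with `κ ≠ 0`.
-/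

namespace Pool.Agent.GV

open Polynomial Matrix

/-- the matrix of the vertex lemma -/
noncomputable def Gp {n m : ℕ} (Y : Matrix (Fin n) (Fin n) ℚ) (X' : Matrix (Fin m) (Fin n) ℚ)
    (Q : Matrix (Fin n) (Fin m) ℚ) (Z : Matrix (Fin m) (Fin m) ℚ) :
    Matrix (Fin n ⊕ Fin m) (Fin n ⊕ Fin m) ℚ[X] :=
  fromBlocks (1 - (X : ℚ[X]) • Y.map C) ((X : ℚ[X]) • (Y * Q).map C) (-((X : ℚ[X]) • X'.map C))
    ((X : ℚ[X]) • (1 + X' * Q).map C - Z.map C)

/-- the same matrix over any commutative ring -/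
private noncomputable def GpR {R : Type} [CommRing R] {n m : ℕ} (Y : Matrix (Fin n) (Fin n) R)
    (X' : Matrix (Fin m) (Fin n) R) (Q : Matrix (Fin n) (Fin m) R) (Z : Matrix (Fin m) (Fin m) R) :
    Matrix (Fin n ⊕ Fin m) (Fin n ⊕ Fin m) R[X] :=
  fromBlocks (1 - (X : R[X]) • Y.map C) ((X : R[X]) • (Y * Q).map C) (-((X : R[X]) • X'.map C))
    ((X : R[X]) • (1 + X' * Q).map C - Z.map C)

private theorem GpR_map {R S : Type} [CommRing R] [CommRing S] (f : R →+* S) {n m : ℕ}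
    (Y : Matrix (Fin n) (Fin n) R) (X' : Matrix (Fin m) (Fin n) R) (Q : Matrix (Fin n) (Fin m) R)
    (Z : Matrix (Fin m) (Fin m) R) :
    (mapRingHom f).mapMatrix (GpR Y X' Q Z) = GpR (Y.map f) (X'.map f) (Q.map f) (Z.map f) := by
  have hYQ : (Y * Q).map f = Y.map f * Q.map f := Matrix.map_mul
  have hXQ : (1 + X' * Q).map f = 1 + X'.map f * Q.map f := by
    rw [Matrix.map_add f (map_add f), Matrix.map_mul, Matrix.map_one f (map_zero f) (map_one f)]
  unfold GpR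
  rw [← hYQ, ← hXQ]
  ext i j : 1
  rcases i with i | i <;> rcases j with j | j
  · simp only [RingHom.mapMatrix_apply, Matrix.map_apply, fromBlocks_apply₁₁, Matrix.sub_apply,
      Matrix.smul_apply, smul_eq_mul, map_sub, map_mul, coe_mapRingHom, map_X, map_C,
      Matrix.one_apply]
    split_ifs <;> simp
  · simp only [RingHom.mapMatrix_apply, Matrix.map_apply, fromBlocks_apply₁₂,
      Matrix.smul_apply, smul_eq_mul, coe_mapRingHom]
    rw [Polynomial.map_mul, Polynomial.map_X, Polynomial.map_C]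
  · simp only [RingHom.mapMatrix_apply, Matrix.map_apply, fromBlocks_apply₂₁, Matrix.neg_apply,
      Matrix.smul_apply, smul_eq_mul, coe_mapRingHom]
    rw [Polynomial.map_neg, Polynomial.map_mul, Polynomial.map_X, Polynomial.map_C]
  · simp only [RingHom.mapMatrix_apply, Matrix.map_apply, fromBlocks_apply₂₂, Matrix.sub_apply,
      Matrix.smul_apply, smul_eq_mul, coe_mapRingHom]
    rw [Polynomial.map_sub, Polynomial.map_mul, Polynomial.map_X, Polynomial.map_C,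
      Polynomial.map_C]

private theorem GpR_det_map {R S : Type} [CommRing R] [CommRing S] (f : R →+* S) {n m : ℕ}
    (Y : Matrix (Fin n) (Fin n) R) (X' : Matrix (Fin m) (Fin n) R) (Q : Matrix (Fin n) (Fin m) R)
    (Z : Matrix (Fin m) (Fin m) R) :
    (GpR Y X' Q Z).det.map f = (GpR (Y.map f) (X'.map f) (Q.map f) (Z.map f)).det := by
  rw [← GpR_map, ← RingHom.map_det]
  rfl

private theorem GpR_zero {R : Type} [CommRing R] {n m : ℕ} :
    (GpR (0 : Matrix (Fin n) (Fin n) R) (0 : Matrix (Fin m) (Fin n) R)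
      (0 : Matrix (Fin n) (Fin m) R) (0 : Matrix (Fin m) (Fin m) R)).det = X ^ m := by
  unfold GpR
  have h1 : ∀ {a b : ℕ}, (0 : Matrix (Fin a) (Fin b) R).map (C : R →+* R[X]) = 0 := by
    intro a b
    exact Matrix.map_zero _ (map_zero C)
  have h2 : (1 : Matrix (Fin m) (Fin m) R).map (C : R →+* R[X]) = 1 :=
    Matrix.map_one _ (map_zero C) (map_one C)
  rw [Matrix.zero_mul, Matrix.mul_zero, add_zero, h1, h1, h1, h1, h2, smul_zero, sub_zero,
    smul_zero, smul_zero, neg_zero, sub_zero, det_fromBlocks_zero₂₁, det_one, one_mul,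
    det_smul, det_one, mul_one, Fintype.card_fin]

private theorem sm_lift {x : ℚ} (hx : Sm x) :
    ∃ y : ℤ_[2], ((y : ℚ_[2]) = (x : ℚ_[2])) ∧ PadicInt.toZMod y = 0 := by
  have h1 : ‖(x : ℚ_[2])‖ ≤ 1 / 2 := by
    rw [Padic.eq_padicNorm]
    have : ((padicNorm 2 x : ℚ) : ℝ) ≤ ((1 / 2 : ℚ) : ℝ) := by exact_mod_cast hx
    refine this.trans (le_of_eq ?_)
    norm_num
  obtain ⟨y, hy⟩ : ∃ y : ℤ_[2], (y : ℚ_[2]) = (x : ℚ_[2]) := ⟨⟨x, by linarith⟩, rfl⟩
  refine ⟨y, hy, ?_⟩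
  have h2 : y ∈ IsLocalRing.maximalIdeal ℤ_[2] := by
    rw [IsLocalRing.mem_maximalIdeal, PadicInt.mem_nonunits, PadicInt.norm_def, hy]
    linarith
  rw [← PadicInt.ker_toZMod, RingHom.mem_ker] at h2
  exact h2

theorem det_cong {n m : ℕ} (Y : Matrix (Fin n) (Fin n) ℚ) (X' : Matrix (Fin m) (Fin n) ℚ)
    (Q : Matrix (Fin n) (Fin m) ℚ) (Z : Matrix (Fin m) (Fin m) ℚ) (hY : ∀ i j, Sm (Y i j))
    (hX : ∀ i j, Sm (X' i j)) (hQ : ∀ i j, Sm (Q i j)) (hZ : ∀ i j, Sm (Z i j)) (i : ℕ) :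
    Sm ((Gp Y X' Q Z).det.coeff i - if i = m then 1 else 0) := by
  choose y hy hy0 using fun i j => sm_lift (hY i j)
  choose x hx hx0 using fun i j => sm_lift (hX i j)
  choose q hq hq0 using fun i j => sm_lift (hQ i j)
  choose z hz hz0 using fun i j => sm_lift (hZ i j)
  have e0 : Gp Y X' Q Z = GpR Y X' Q Z := rfl
  rw [e0]
  obtain ⟨d, hd⟩ : ∃ d : ℤ_[2][X], d = (GpR (Matrix.of y) (Matrix.of x) (Matrix.of q)
    (Matrix.of z)).det := ⟨_, rfl⟩
  have h1 : d.map (PadicInt.Coe.ringHom : ℤ_[2] →+* ℚ_[2]) =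
      (GpR Y X' Q Z).det.map (Rat.castHom ℚ_[2]) := by
    rw [hd, GpR_det_map, GpR_det_map]
    congr 1
    have a1 : (Matrix.of y).map (PadicInt.Coe.ringHom : ℤ_[2] →+* ℚ_[2]) =
        Y.map (Rat.castHom ℚ_[2]) := by
      ext i j
      exact hy i j
    have a2 : (Matrix.of x).map (PadicInt.Coe.ringHom : ℤ_[2] →+* ℚ_[2]) =
        X'.map (Rat.castHom ℚ_[2]) := by
      ext i j
      exact hx i j
    have a3 : (Matrix.of q).map (PadicInt.Coe.ringHom : ℤ_[2] →+* ℚ_[2]) =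
        Q.map (Rat.castHom ℚ_[2]) := by
      ext i j
      exact hq i j
    have a4 : (Matrix.of z).map (PadicInt.Coe.ringHom : ℤ_[2] →+* ℚ_[2]) =
        Z.map (Rat.castHom ℚ_[2]) := by
      ext i j
      exact hz i j
    rw [a1, a2, a3, a4]
  have h2 : d.map (PadicInt.toZMod : ℤ_[2] →+* ZMod 2) = X ^ m := by
    rw [hd, GpR_det_map]
    have a1 : (Matrix.of y).map (PadicInt.toZMod : ℤ_[2] →+* ZMod 2) = 0 := by
      ext i j
      exact hy0 i j
    have a2 : (Matrix.of x).map (PadicInt.toZMod : ℤ_[2] →+* ZMod 2) = 0 := by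
      ext i j
      exact hx0 i j
    have a3 : (Matrix.of q).map (PadicInt.toZMod : ℤ_[2] →+* ZMod 2) = 0 := by
      ext i j
      exact hq0 i j
    have a4 : (Matrix.of z).map (PadicInt.toZMod : ℤ_[2] →+* ZMod 2) = 0 := by
      ext i j
      exact hz0 i j
    rw [a1, a2, a3, a4]
    exact GpR_zero
  have h3 : PadicInt.toZMod (d.coeff i) = if i = m then (1 : ZMod 2) else 0 := by
    have h4 := congrArg (fun r => r.coeff i) h2
    simp only [coeff_map, coeff_X_pow] at h4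
    exact h4
  obtain ⟨c, hc⟩ : ∃ c : ℤ_[2], c = d.coeff i - if i = m then 1 else 0 := ⟨_, rfl⟩
  have h5 : PadicInt.toZMod c = 0 := by
    rw [hc, map_sub, h3]
    split_ifs <;> simp
  have h6 : ‖c‖ < 1 := by
    rw [← RingHom.mem_ker, PadicInt.ker_toZMod, IsLocalRing.mem_maximalIdeal,
      PadicInt.mem_nonunits] at h5
    exact h5
  have h7 : ‖c‖ ≤ 1 / 2 := by
    have h8 := (PadicInt.norm_le_pow_iff_norm_lt_pow_add_one c (-1)).2 (by
      have : (((2 : ℕ) : ℝ)) ^ ((-1 : ℤ) + 1) = 1 := by norm_num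
      rw [this]
      exact h6)
    refine h8.trans (le_of_eq ?_)
    norm_num
  have h9 : (c : ℚ_[2]) =
      (((GpR Y X' Q Z).det.coeff i - if i = m then 1 else 0 : ℚ) : ℚ_[2]) := by
    have h10 := congrArg (fun r => r.coeff i) h1
    simp only [coeff_map] at h10
    have h11 : ((d.coeff i : ℤ_[2]) : ℚ_[2]) = (((GpR Y X' Q Z).det.coeff i : ℚ) : ℚ_[2]) := h10
    rw [hc, PadicInt.coe_sub, h11]
    split_ifs <;> simp
  have h12 : ‖(c : ℚ_[2])‖ ≤ 1 / 2 := h7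
  rw [h9, Padic.eq_padicNorm] at h12
  unfold Sm
  have h13 : ((padicNorm 2 ((GpR Y X' Q Z).det.coeff i - if i = m then 1 else 0) : ℚ) : ℝ) ≤
      ((1 / 2 : ℚ) : ℝ) := by
    refine h12.trans (le_of_eq ?_)
    norm_num
  exact_mod_cast h13

theorem det_fact {n m : ℕ} (A : Matrix (Fin n) (Fin n) ℚ) (B : Matrix (Fin n) (Fin m) ℚ)
    (C' : Matrix (Fin m) (Fin n) ℚ) (D : Matrix (Fin m) (Fin m) ℚ) (s : ℚ) (hs : s ≠ 0)
    (Y : Matrix (Fin n) (Fin n) ℚ) (X' : Matrix (Fin m) (Fin n) ℚ)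
    (Q : Matrix (Fin n) (Fin m) ℚ) (Z : Matrix (Fin m) (Fin m) ℚ)
    (h1 : A * Y = s • (1 : Matrix (Fin n) (Fin n) ℚ)) (h2 : X' * A = C') (h3 : A * Q = B)
    (h4 : D - X' * B = s • Z) :
    ∃ κ : ℚ, κ ≠ 0 ∧ C κ * (fromBlocks A B C' D).charpoly.comp (C s * X) = (Gp Y X' Q Z).det := by
  have hYA : Y * A = s • (1 : Matrix (Fin n) (Fin n) ℚ) := by
    have e1 : A * (s⁻¹ • Y) = 1 := by
      rw [Matrix.mul_smul, h1, smul_smul, inv_mul_cancel₀ hs, one_smul]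
    have e2 := mul_eq_one_comm.1 e1
    rw [Matrix.smul_mul] at e2
    calc Y * A = s • (s⁻¹ • (Y * A)) := by rw [smul_smul, mul_inv_cancel₀ hs, one_smul]
      _ = s • (1 : Matrix (Fin n) (Fin n) ℚ) := by rw [e2]
  obtain ⟨a, ha⟩ : ∃ a : Matrix (Fin n) (Fin n) ℚ[X], a = A.map C := ⟨_, rfl⟩
  obtain ⟨b, hb⟩ : ∃ b : Matrix (Fin n) (Fin m) ℚ[X], b = B.map C := ⟨_, rfl⟩
  obtain ⟨c, hc⟩ : ∃ c : Matrix (Fin m) (Fin n) ℚ[X], c = C'.map C := ⟨_, rfl⟩
  obtain ⟨d, hd⟩ : ∃ d : Matrix (Fin m) (Fin m) ℚ[X], d = D.map C := ⟨_, rfl⟩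
  obtain ⟨y, hy⟩ : ∃ y : Matrix (Fin n) (Fin n) ℚ[X], y = Y.map C := ⟨_, rfl⟩
  obtain ⟨x, hx⟩ : ∃ x : Matrix (Fin m) (Fin n) ℚ[X], x = X'.map C := ⟨_, rfl⟩
  obtain ⟨q, hq⟩ : ∃ q : Matrix (Fin n) (Fin m) ℚ[X], q = Q.map C := ⟨_, rfl⟩
  obtain ⟨z, hz⟩ : ∃ z : Matrix (Fin m) (Fin m) ℚ[X], z = Z.map C := ⟨_, rfl⟩
  have hsm : ∀ {k l : ℕ} (r : ℚ) (M : Matrix (Fin k) (Fin l) ℚ),
      (r • M).map (C : ℚ →+* ℚ[X]) = (C r : ℚ[X]) • M.map C := by
    intro k l r M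
    ext i j : 1
    simp only [Matrix.map_apply, Matrix.smul_apply, smul_eq_mul, map_mul]
  have h1m : ∀ k : ℕ, (1 : Matrix (Fin k) (Fin k) ℚ).map (C : ℚ →+* ℚ[X]) = 1 :=
    fun k => Matrix.map_one _ (map_zero C) (map_one C)
  have kya : y * a = (C s : ℚ[X]) • (1 : Matrix (Fin n) (Fin n) ℚ[X]) := by
    rw [hy, ha, ← Matrix.map_mul, hYA, hsm, h1m]
  have kxa : x * a = c := by
    rw [hx, ha, hc, ← Matrix.map_mul, h2]
  have kaq : a * q = b := by
    rw [ha, hq, hb, ← Matrix.map_mul, h3]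
  have kd : d - x * b = (C s : ℚ[X]) • z := by
    have e1 : (D - X' * B).map (C : ℚ →+* ℚ[X]) = d - x * b := by
      rw [Matrix.map_sub _ (map_sub C), Matrix.map_mul, ← hd, ← hx, ← hb]
    rw [← e1, h4, hsm, hz]
  obtain ⟨w, hw⟩ : ∃ w : ℚ[X], w = C s * X := ⟨_, rfl⟩
  have hsi : (C s⁻¹ : ℚ[X]) * C s = 1 := by rw [← C_mul, inv_mul_cancel₀ hs, C_1]
  have hwi : (C s⁻¹ : ℚ[X]) * w = X := by rw [hw, ← mul_assoc, hsi, one_mul]
  have hN : (fromBlocks A B C' D).charpoly.comp w =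
      (fromBlocks (w • 1 - a) (-b) (-c) (w • 1 - d)).det := by
    have e1 : (fromBlocks A B C' D).charpoly.comp w =
        (compRingHom w) ((fromBlocks A B C' D).charmatrix.det) := by
      rw [coe_compRingHom_apply]
      rfl
    rw [e1, RingHom.map_det]
    congr 1
    ext i j : 1
    rcases i with i | i <;> rcases j with j | j
    · rw [ha]
      simp only [RingHom.mapMatrix_apply, Matrix.map_apply, charmatrix_apply, fromBlocks_apply₁₁,
        Matrix.sub_apply, Matrix.smul_apply, smul_eq_mul, Matrix.diagonal_apply, Matrix.one_apply,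
        Sum.inl.injEq, coe_compRingHom_apply, sub_comp, C_comp]
      split_ifs <;> simp
    · rw [hb]
      simp [charmatrix_apply, coe_compRingHom_apply]
    · rw [hc]
      simp [charmatrix_apply, coe_compRingHom_apply]
    · rw [hd]
      simp only [RingHom.mapMatrix_apply, Matrix.map_apply, charmatrix_apply, fromBlocks_apply₂₂,
        Matrix.sub_apply, Matrix.smul_apply, smul_eq_mul, Matrix.diagonal_apply, Matrix.one_apply,
        Sum.inr.injEq, coe_compRingHom_apply, sub_comp, C_comp]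
      split_ifs <;> simp
  have hLN : fromBlocks 1 0 (-x) 1 * fromBlocks (w • 1 - a) (-b) (-c) (w • 1 - d) =
      fromBlocks (w • 1 - a) (-b) (-(w • x)) (w • 1 - (C s : ℚ[X]) • z) := by
    rw [fromBlocks_multiply, fromBlocks_inj]
    refine ⟨by rw [Matrix.one_mul, Matrix.zero_mul, add_zero],
      by rw [Matrix.one_mul, Matrix.zero_mul, add_zero], ?_, ?_⟩
    · rw [Matrix.mul_sub, Matrix.mul_smul, Matrix.mul_one, Matrix.one_mul, Matrix.neg_mul, kxa,
        smul_neg]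
      abel
    · rw [Matrix.neg_mul, Matrix.mul_neg, neg_neg, Matrix.one_mul, ← kd]
      abel
  have hLNR : fromBlocks (w • 1 - a) (-b) (-(w • x)) (w • 1 - (C s : ℚ[X]) • z) *
      fromBlocks 1 (-q) 0 1 =
      fromBlocks (w • 1 - a) (-(w • q)) (-(w • x)) (w • (1 + x * q) - (C s : ℚ[X]) • z) := by
    rw [fromBlocks_multiply, fromBlocks_inj]
    refine ⟨by rw [Matrix.mul_one, Matrix.mul_zero, add_zero], ?_,
      by rw [Matrix.mul_one, Matrix.mul_zero, add_zero], ?_⟩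
    · rw [Matrix.mul_neg, Matrix.sub_mul, Matrix.smul_mul, Matrix.one_mul, Matrix.mul_one, kaq]
      abel
    · rw [Matrix.mul_neg, Matrix.neg_mul, neg_neg, Matrix.smul_mul, Matrix.mul_one, smul_add]
      abel
  have hP : fromBlocks (-(C s⁻¹ : ℚ[X]) • y) 0 0 ((C s⁻¹ : ℚ[X]) • 1) *
      fromBlocks (w • 1 - a) (-(w • q)) (-(w • x)) (w • (1 + x * q) - (C s : ℚ[X]) • z) =
      Gp Y X' Q Z := by
    have e1 : (1 + X' * Q).map (C : ℚ →+* ℚ[X]) = 1 + x * q := by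
      rw [Matrix.map_add _ (map_add C), Matrix.map_mul, h1m, hx, hq]
    have e2 : (Y * Q).map (C : ℚ →+* ℚ[X]) = y * q := by
      rw [Matrix.map_mul, hy, hq]
    unfold Gp
    rw [e1, e2, ← hy, ← hx, ← hz, fromBlocks_multiply, fromBlocks_inj]
    refine ⟨?_, ?_, ?_, ?_⟩
    · rw [Matrix.zero_mul, add_zero, Matrix.mul_sub, Matrix.mul_smul, Matrix.mul_one,
        Matrix.smul_mul, kya, smul_smul, smul_smul, neg_mul, hsi, mul_neg, mul_comm w, hwi,
        neg_smul, neg_smul, one_smul]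
      abel
    · rw [Matrix.zero_mul, add_zero, Matrix.mul_neg, Matrix.mul_smul, Matrix.smul_mul, smul_smul,
        mul_neg, mul_comm w, hwi, neg_smul, neg_neg]
    · rw [Matrix.zero_mul, zero_add, Matrix.mul_neg, Matrix.smul_mul, Matrix.one_mul, smul_smul, hwi]
    · rw [Matrix.zero_mul, zero_add, Matrix.mul_sub, Matrix.smul_mul, Matrix.smul_mul,
        Matrix.one_mul, Matrix.one_mul, smul_smul, smul_smul, hwi, hsi, one_smul]
  have hκ : (fromBlocks (-(C s⁻¹ : ℚ[X]) • y) 0 0 ((C s⁻¹ : ℚ[X]) • 1) :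
      Matrix (Fin n ⊕ Fin m) (Fin n ⊕ Fin m) ℚ[X]).det =
      C ((-(s⁻¹) • Y).det * ((s⁻¹) • (1 : Matrix (Fin m) (Fin m) ℚ)).det) := by
    have e1 : -(C s⁻¹ : ℚ[X]) • y = (-(s⁻¹) • Y).map (C : ℚ →+* ℚ[X]) := by
      rw [hsm, C_neg, hy]
    have e2 : (C s⁻¹ : ℚ[X]) • (1 : Matrix (Fin m) (Fin m) ℚ[X]) =
        ((s⁻¹) • (1 : Matrix (Fin m) (Fin m) ℚ)).map (C : ℚ →+* ℚ[X]) := by
      rw [hsm, h1m]
    rw [det_fromBlocks_zero₂₁, e1, e2, C_mul, RingHom.map_det, RingHom.map_det]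
    rfl
  refine ⟨(-(s⁻¹) • Y).det * ((s⁻¹) • (1 : Matrix (Fin m) (Fin m) ℚ)).det, ?_, ?_⟩
  · have hdY : Y.det ≠ 0 := by
      intro h0
      have e1 := congrArg Matrix.det h1
      rw [det_mul, h0, mul_zero, det_smul, det_one, mul_one] at e1
      exact pow_ne_zero _ hs e1.symm
    refine mul_ne_zero ?_ ?_
    · rw [det_smul]
      exact mul_ne_zero (pow_ne_zero _ (neg_ne_zero.2 (inv_ne_zero hs))) hdY
    · rw [det_smul, det_one, mul_one]
      exact pow_ne_zero _ (inv_ne_zero hs)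
  · have hU : (fromBlocks (1 : Matrix (Fin n) (Fin n) ℚ[X]) 0 (-x) 1).det = 1 := by
      rw [det_fromBlocks_zero₁₂, det_one, det_one, one_mul]
    have hV : (fromBlocks (1 : Matrix (Fin n) (Fin n) ℚ[X]) (-q) 0
        (1 : Matrix (Fin m) (Fin m) ℚ[X])).det = 1 := by
      rw [det_fromBlocks_zero₂₁, det_one, det_one, one_mul]
    rw [← hκ, ← hw, hN, ← hP, ← hLNR, ← hLN, det_mul, det_mul, det_mul, hU, hV, one_mul, mul_one]

end Pool.Agent.GV
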