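import Pool.Agent.GV.LA.Root
import Pool.Agent.GV.LA.Det
import Pool.Agent.GV.LA.Conj

/-!
# GV-LA-Vertex: the number of eigenvalues of absolute value `> 2^(-τ)` is `n`

`g = det Gp` has one dominant coefficient (`det_cong`), `root_count` counts its roots, and
`κ χ(s T) = g(T)` (`det_fact`, `charpoly_blocks`) transports the count to the characteristic
polynomial `χ`.
-/

namespace Pool.Agent.GV

open Polynomial Matrix

/-- the norm of a rational number in `PadicAlgCl 2` -/
theorem norm_rat (x : ℚ) : ‖algebraMap ℚ (PadicAlgCl 2) x‖ = (padicNorm 2 x : ℝ) := by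
  have h1 : algebraMap ℚ (PadicAlgCl 2) x = algebraMap ℚ_[2] (PadicAlgCl 2) (x : ℚ_[2]) := by
    rw [eq_ratCast, map_ratCast]
  rw [h1]
  exact (PadicAlgCl.norm_extends 2 (x : ℚ_[2])).trans (Padic.eq_padicNorm x)

theorem vertex (e : Bool) (a n : ℕ) (τ : ℤ) (h : Good e a n τ) :
    Multiset.card ((((Mmat e a).charpoly.map (algebraMap ℚ (PadicAlgCl 2))).roots).filter
      (fun x => (2 : ℝ) ^ (-τ) < ‖x‖)) = n ∧
    Multiset.card ((((Mmat e a).charpoly.map (algebraMap ℚ (PadicAlgCl 2))).roots).filter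
      (fun x => ‖x‖ < (2 : ℝ) ^ (-τ))) = a - 1 - n := by
  obtain ⟨hn, Y, X', Q, Z, h1, h2, h3, h4, hY, hX, hQ, hZ⟩ := h
  set K := PadicAlgCl 2 with hK
  set ι : ℚ →+* K := algebraMap ℚ K with hι
  set s : ℚ := (2 : ℚ) ^ τ with hs
  have hs0 : s ≠ 0 := zpow_ne_zero _ two_ne_zero
  obtain ⟨κ, hκ, hg⟩ := det_fact (bA e a n) (bB e a n) (bC e a n) (bD e a n) s hs0 Y X' Q Z h1 h2 h3 h4
  rw [← charpoly_blocks e a n hn] at hg
  set χ : K[X] := (Mmat e a).charpoly.map ι with hχ
  set g : K[X] := ((Gp Y X' Q Z).det).map ι with hgK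
  have hgχ : g = C (ι κ) * χ.comp (C (ι s) * X) := by
    rw [hgK, ← hg, Polynomial.map_mul, Polynomial.map_C, Polynomial.map_comp, Polynomial.map_mul,
      Polynomial.map_C, Polynomial.map_X]
  have hκ' : ι κ ≠ 0 := (map_ne_zero ι).2 hκ
  have hs' : ι s ≠ 0 := (map_ne_zero ι).2 hs0
  have hns : ‖ι s‖ = (2 : ℝ) ^ (-τ) := by
    rw [hι, norm_rat, hs]
    rw [show padicNorm 2 ((2 : ℚ) ^ τ) = (2 : ℚ) ^ (-τ) from ?_]
    · push_cast
      rfl
    · have h5 : padicNorm 2 (2 : ℚ) = (2 : ℚ)⁻¹ := by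
        have := padicNorm.padicNorm_p_of_prime (p := 2)
        exact_mod_cast this
      rw [show (2 : ℚ) ^ (-τ) = ((2 : ℚ)⁻¹) ^ τ from by rw [_root_.zpow_neg, _root_.inv_zpow], ← h5]
      exact map_zpow₀ (IsAbsoluteValue.abvHom' (padicNorm 2)) 2 τ
  -- coefficients
  have hco : ∀ i, g.coeff i = ι ((Gp Y X' Q Z).det.coeff i) := fun i => Polynomial.coeff_map _ _
  have hsm : ∀ x : ℚ, Sm x → ‖ι x‖ ≤ 1 / 2 := fun x hx => by
    rw [hι, norm_rat]
    have : ((padicNorm 2 x : ℚ) : ℝ) ≤ ((1 / 2 : ℚ) : ℝ) := by exact_mod_cast hx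
    simpa using this
  have hi : ∀ i, i ≠ a - 1 - n → ‖g.coeff i‖ < 1 := by
    intro i hi
    have h5 := det_cong Y X' Q Z hY hX hQ hZ i
    rw [if_neg hi, sub_zero] at h5
    rw [hco]
    exact lt_of_le_of_lt (hsm _ h5) (by norm_num)
  have hm : ‖g.coeff (a - 1 - n)‖ = 1 := by
    have h5 := det_cong Y X' Q Z hY hX hQ hZ (a - 1 - n)
    rw [if_pos rfl] at h5
    have h6 := hsm _ h5
    rw [map_sub, map_one, ← hco] at h6
    have h7 : ‖g.coeff (a - 1 - n) - 1‖ < ‖(1 : K)‖ := by
      rw [norm_one]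
      exact lt_of_le_of_lt h6 (by norm_num)
    have h8 := IsUltrametricDist.norm_add_eq_max_of_norm_ne_norm (x := g.coeff (a - 1 - n) - 1)
      (y := (1 : K)) h7.ne
    rw [sub_add_cancel, max_eq_right h7.le, norm_one] at h8
    exact h8
  obtain ⟨r1, r2, -⟩ := root_count g (a - 1 - n) (IsAlgClosed.splits g) hm hi
  have hroots : χ.roots = g.roots.map (fun x => ι s * x) := by
    have h5 := Polynomial.map_roots_comp_C_mul_X_add_C χ (ι s) 0 (isUnit_iff_ne_zero.2 hs')
    rw [hgχ, Polynomial.roots_C_mul _ hκ', ← h5]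
    simp
  have hdeg : g.natDegree = a - 1 := by
    rw [hgχ, Polynomial.natDegree_C_mul hκ', Polynomial.natDegree_comp,
      Polynomial.natDegree_C_mul hs', Polynomial.natDegree_X, mul_one, hχ,
      Polynomial.natDegree_map_eq_of_injective ι.injective, Matrix.charpoly_natDegree_eq_dim,
      Fintype.card_fin]
  have hs2 : (0 : ℝ) < (2 : ℝ) ^ (-τ) := by positivity
  constructor
  · rw [hroots, Multiset.filter_map, Multiset.card_map]
    have h6 : Multiset.card (g.roots.filter (fun x => 1 < ‖x‖)) = n := by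
      rw [r2, hdeg]
      omega
    rw [← h6]
    congr 1
    refine Multiset.filter_congr fun x _ => ?_
    simp only [Function.comp_apply, norm_mul, hns]
    constructor
    · intro h7
      by_contra h8
      have := mul_le_mul_of_nonneg_left (not_lt.1 h8) hs2.le
      linarith
    · intro h7
      nlinarith
  · rw [hroots, Multiset.filter_map, Multiset.card_map, ← r1]
    congr 1
    refine Multiset.filter_congr fun x _ => ?_
    simp only [Function.comp_apply, norm_mul, hns]
    constructor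
    · intro h7
      by_contra h8
      have := mul_le_mul_of_nonneg_left (not_lt.1 h8) hs2.le
      linarith
    · intro h7
      nlinarith

end Pool.Agent.GV
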