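import Pool.Agent.GV.Basic

/-!
# GV-LA definitions

`Mp e a l j = 2^(e-1) 4^(l+j) B e a l j` is the matrix of `U_2` in the basis rescaled by `64^j`.
`Good e a n τ`: all entries of the four matrices `s A⁻¹`, `C A⁻¹`, `A⁻¹ B`, `(D - C A⁻¹ B)/s` are
divisible by `2`, where `s = 2^τ` and `A, B, C, D` are the blocks of `Mp` (`A` of size `n`).
-/

namespace Pool.Agent.GV

/-- the rescaled matrix of `U_2` -/
def Mp (e : Bool) (a : ℕ) (l j : ℕ) : ℚ := (bif e then 1 else 1 / 2) * 4 ^ (l + j) * B e (a : ℚ) l j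

/-- 2-adically small: divisible by two -/
def Sm (x : ℚ) : Prop := padicNorm 2 x ≤ 1 / 2

/-- left upper block -/
def bA (e : Bool) (a n : ℕ) : Matrix (Fin n) (Fin n) ℚ :=
  Matrix.of fun i j => Mp e a (i + 1) (j + 1)

/-- right upper block -/
def bB (e : Bool) (a n : ℕ) : Matrix (Fin n) (Fin (a - 1 - n)) ℚ :=
  Matrix.of fun i j => Mp e a (i + 1) (n + j + 1)

/-- left lower block -/
def bC (e : Bool) (a n : ℕ) : Matrix (Fin (a - 1 - n)) (Fin n) ℚ :=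
  Matrix.of fun i j => Mp e a (n + i + 1) (j + 1)

/-- right lower block -/
def bD (e : Bool) (a n : ℕ) : Matrix (Fin (a - 1 - n)) (Fin (a - 1 - n)) ℚ :=
  Matrix.of fun i j => Mp e a (n + i + 1) (n + j + 1)

/-- the hypothesis of the vertex lemma -/
def Good (e : Bool) (a n : ℕ) (τ : ℤ) : Prop :=
  n ≤ a - 1 ∧ ∃ (Y : Matrix (Fin n) (Fin n) ℚ) (X : Matrix (Fin (a - 1 - n)) (Fin n) ℚ)
    (Q : Matrix (Fin n) (Fin (a - 1 - n)) ℚ) (Z : Matrix (Fin (a - 1 - n)) (Fin (a - 1 - n)) ℚ),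
    bA e a n * Y = ((2 : ℚ) ^ τ) • (1 : Matrix (Fin n) (Fin n) ℚ) ∧
    X * bA e a n = bC e a n ∧ bA e a n * Q = bB e a n ∧
    bD e a n - X * bB e a n = ((2 : ℚ) ^ τ) • Z ∧
    (∀ i j, Sm (Y i j)) ∧ (∀ i j, Sm (X i j)) ∧ (∀ i j, Sm (Q i j)) ∧ (∀ i j, Sm (Z i j))

end Pool.Agent.GV
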