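import Mathlib

/-!
# GV-LA-Root: counting roots of a polynomial with one dominant coefficient

`K` a normed field with ultrametric distance.  `g ∈ K[X]` splits, `‖g_m‖ = 1` and `‖g_i‖ < 1` for
`i ≠ m`.  Then `g` has exactly `m` roots with norm `< 1` and the other `deg g - m` roots have norm
`> 1`.

Plan.  (1) No root has norm `1`: if `‖x‖ = 1` then `‖g_m x^m‖ = 1 > ‖g_i x^i‖` for the others, so
`‖g(x)‖ = 1` (ultrametric).
(2) For a multiset `s` in `K` without elements of norm `1`, let `B(s) = ∏ max 1 ‖r‖`,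
`p(s) = #{r : ‖r‖ < 1}`, `f_s = ∏ (X - r)`.  Then `‖coeff f_s i‖ ≤ B(s)` for all `i`, with equality
for `i = p(s)` and strict inequality for `i ≠ p(s)`.  Induction on `s`, `f_{r ::ₘ s} =
(X - r) f_s`, `coeff_i = coeff_{i-1}(f_s) - r coeff_i(f_s)`.  If `‖r‖ < 1`: `p` increases by one, `B` is
the same.  If `‖r‖ > 1`: `p` is the same and `B` is multiplied by `‖r‖`.
(3) `g = C lead * f_s` with `s = g.roots` (`g` splits).  `‖g_i‖ = ‖lead‖ ‖coeff f_s i‖` has its unique
maximum at `i = p(s)`, and by hypothesis at `i = m`, hence `p(s) = m`.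
-/

namespace Pool.Agent.GV

open Polynomial

private lemma add_lt_of_lt {K : Type*} [NormedField K] [IsUltrametricDist K] {x y : K} {c : ℝ}
    (hx : ‖x‖ < c) (hy : ‖y‖ < c) : ‖x - y‖ < c := by
  have h := IsUltrametricDist.norm_add_le_max x (-y)
  rw [norm_neg, ← sub_eq_add_neg] at h
  exact lt_of_le_of_lt h (max_lt hx hy)

private lemma sum_lt_one {K : Type*} [NormedField K] [IsUltrametricDist K] {ι : Type*}
    (s : Finset ι) (f : ι → K) (h : ∀ i ∈ s, ‖f i‖ < 1) : ‖∑ i ∈ s, f i‖ < 1 := by
  classical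
  induction s using Finset.induction_on with
  | empty => simp
  | insert a s ha ih =>
    rw [Finset.sum_insert ha]
    refine lt_of_le_of_lt (IsUltrametricDist.norm_add_le_max _ _) (max_lt ?_ ?_)
    · exact h a (Finset.mem_insert_self _ _)
    · exact ih fun i hi => h i (Finset.mem_insert_of_mem hi)

private lemma sub_eq_left {K : Type*} [NormedField K] [IsUltrametricDist K] {x y : K}
    (h : ‖y‖ < ‖x‖) : ‖x - y‖ = ‖x‖ := by
  have h1 := IsUltrametricDist.norm_add_eq_max_of_norm_ne_norm (x := x) (y := -y)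
    (by rw [norm_neg]; exact h.ne')
  rw [norm_neg, max_eq_left h.le, ← sub_eq_add_neg] at h1
  exact h1

private lemma sub_eq_right {K : Type*} [NormedField K] [IsUltrametricDist K] {x y : K}
    (h : ‖x‖ < ‖y‖) : ‖x - y‖ = ‖y‖ := by
  rw [norm_sub_rev]
  exact sub_eq_left h

private lemma coeff_step {K : Type*} [Field K] (f : K[X]) (r : K) (i : ℕ) :
    ((X - C r) * f).coeff (i + 1) = f.coeff i - r * f.coeff (i + 1) := by
  rw [sub_mul, coeff_sub, coeff_X_mul, coeff_C_mul]

private lemma coeff_step0 {K : Type*} [Field K] (f : K[X]) (r : K) :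
    ((X - C r) * f).coeff 0 = -(r * f.coeff 0) := by
  rw [sub_mul, coeff_sub, coeff_C_mul, mul_coeff_zero, coeff_X_zero, zero_mul, zero_sub]

private lemma prod_main {K : Type*} [NormedField K] [IsUltrametricDist K] (s : Multiset K)
    (h : ∀ x ∈ s, ‖x‖ ≠ 1) : ∃ B : ℝ, 0 < B ∧
      ‖((s.map fun r => X - C r).prod).coeff (Multiset.card (s.filter fun x => ‖x‖ < 1))‖ = B ∧
      ∀ i, i ≠ Multiset.card (s.filter fun x => ‖x‖ < 1) →
        ‖((s.map fun r => X - C r).prod).coeff i‖ < B := by
  classical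
  induction s using Multiset.induction_on with
  | empty =>
    refine ⟨1, one_pos, by simp, ?_⟩
    intro i hi
    have hi0 : i ≠ 0 := by simpa using hi
    rw [Multiset.map_zero, Multiset.prod_zero, coeff_one, if_neg hi0, norm_zero]
    exact one_pos
  | cons r s ih =>
    obtain ⟨B, hB, h1, h2⟩ := ih fun x hx => h x (Multiset.mem_cons_of_mem hx)
    have hle : ∀ i, ‖((s.map fun r => X - C r).prod).coeff i‖ ≤ B := by
      intro i
      by_cases hi : i = Multiset.card (s.filter fun x => ‖x‖ < 1)
      · rw [hi, h1]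
      · exact (h2 i hi).le
    rw [Multiset.map_cons, Multiset.prod_cons]
    generalize (s.map fun r => X - C r).prod = f at *
    have hr := h r (Multiset.mem_cons_self r s)
    rcases lt_or_gt_of_ne hr with hr | hr
    · rw [Multiset.filter_cons_of_pos s hr, Multiset.card_cons]
      generalize Multiset.card (s.filter fun x => ‖x‖ < 1) = p at *
      have hlt : ∀ i, ‖r * f.coeff i‖ < B := by
        intro i
        rw [norm_mul]
        calc ‖r‖ * ‖f.coeff i‖ ≤ ‖r‖ * B := mul_le_mul_of_nonneg_left (hle i) (norm_nonneg r)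
          _ < 1 * B := mul_lt_mul_of_pos_right hr hB
          _ = B := one_mul B
      refine ⟨B, hB, ?_, ?_⟩
      · rw [coeff_step, sub_eq_left (by rw [h1]; exact hlt _), h1]
      · intro i hi
        rcases i with _ | i
        · rw [coeff_step0, norm_neg]
          exact hlt 0
        · rw [coeff_step]
          exact add_lt_of_lt (h2 i (by omega)) (hlt _)
    · have hr' : ¬ ‖r‖ < 1 := not_lt.2 hr.le
      rw [Multiset.filter_cons_of_neg s hr']
      generalize Multiset.card (s.filter fun x => ‖x‖ < 1) = p at *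
      have hB' : B < ‖r‖ * B := by
        calc B = 1 * B := (one_mul B).symm
          _ < ‖r‖ * B := mul_lt_mul_of_pos_right hr hB
      refine ⟨‖r‖ * B, mul_pos (one_pos.trans hr) hB, ?_, ?_⟩
      · rcases p with _ | p
        · rw [coeff_step0, norm_neg, norm_mul, h1]
        · rw [coeff_step, sub_eq_right, norm_mul, h1]
          rw [norm_mul, h1]
          exact lt_of_le_of_lt (hle p) hB'
      · intro i hi
        have h3 : ‖r * f.coeff i‖ < ‖r‖ * B := by
          rw [norm_mul]
          exact mul_lt_mul_of_pos_left (h2 i hi) (one_pos.trans hr)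
        rcases i with _ | i
        · rw [coeff_step0, norm_neg]
          exact h3
        · rw [coeff_step]
          exact add_lt_of_lt (lt_of_le_of_lt (hle i) hB') h3

theorem root_count {K : Type*} [NormedField K] [IsUltrametricDist K] (g : K[X]) (m : ℕ)
    (hs : g.Splits) (hm : ‖g.coeff m‖ = 1) (hi : ∀ i, i ≠ m → ‖g.coeff i‖ < 1) :
    Multiset.card (g.roots.filter (fun x => ‖x‖ < 1)) = m ∧
    Multiset.card (g.roots.filter (fun x => 1 < ‖x‖)) = g.natDegree - m ∧
    ∀ x ∈ g.roots, ‖x‖ ≠ 1 := by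
  classical
  have hg0 : g ≠ 0 := by
    rintro rfl
    rw [coeff_zero, norm_zero] at hm
    exact zero_ne_one hm
  have hroot : ∀ x ∈ g.roots, ‖x‖ ≠ 1 := by
    intro x hx h1
    have h2 : g.eval x = 0 := (mem_roots hg0).1 hx
    rw [eval_eq_sum_range' (Nat.lt_succ_self (max g.natDegree m) |> fun h =>
      lt_of_le_of_lt (le_max_left _ _) h)] at h2
    have hmem : m ∈ Finset.range (max g.natDegree m).succ :=
      Finset.mem_range.2 (Nat.lt_succ_of_le (le_max_right _ _))
    rw [← Finset.add_sum_erase _ _ hmem] at h2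
    have h3 : ‖∑ i ∈ (Finset.range (max g.natDegree m).succ).erase m, g.coeff i * x ^ i‖ < 1 := by
      refine sum_lt_one _ _ fun i hi' => ?_
      rw [norm_mul, norm_pow, h1, one_pow, mul_one]
      exact hi i (Finset.ne_of_mem_erase hi')
    have h4 : ‖g.coeff m * x ^ m‖ = 1 := by
      rw [norm_mul, norm_pow, h1, one_pow, mul_one, hm]
    rw [eq_neg_of_add_eq_zero_left h2, norm_neg] at h4
    rw [h4] at h3
    exact lt_irrefl _ h3
  obtain ⟨B, hB, h1, h2⟩ := prod_main g.roots hroot
  have hfac := hs.eq_prod_roots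
  have hlead : 0 < ‖g.leadingCoeff‖ := norm_pos_iff.2 (leadingCoeff_ne_zero.2 hg0)
  have hco : ∀ i, ‖g.coeff i‖ =
      ‖g.leadingCoeff‖ * ‖((g.roots.map fun r => X - C r).prod).coeff i‖ := by
    intro i
    conv_lhs => rw [hfac]
    rw [coeff_C_mul, norm_mul]
  have hp : Multiset.card (g.roots.filter (fun x => ‖x‖ < 1)) = m := by
    by_contra hne
    have h3 := hi _ hne
    rw [hco, h1] at h3
    have h4 := hm
    rw [hco] at h4
    have h5 := h2 m (fun h => hne h.symm)
    have h6 := mul_lt_mul_of_pos_left h5 hlead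
    rw [h4] at h6
    exact lt_irrefl _ (h6.trans h3)
  refine ⟨hp, ?_, hroot⟩
  have h7 : Multiset.card g.roots = g.natDegree := hs.natDegree_eq_card_roots.symm
  have h8 := congrArg Multiset.card (Multiset.filter_add_not (fun x : K => ‖x‖ < 1) g.roots)
  rw [Multiset.card_add, h7, hp] at h8
  have h9 : g.roots.filter (fun x => 1 < ‖x‖) = g.roots.filter (fun x => ¬ ‖x‖ < 1) := by
    refine Multiset.filter_congr fun x hx => ?_
    have := hroot x hx
    constructor
    · intro h
      exact not_lt.2 h.le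
    · intro h
      exact lt_of_le_of_ne (not_lt.1 h) (Ne.symm this)
  rw [h9]
  omega

end Pool.Agent.GV
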